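import Pool.Agent.H681.QF.Brg

set_option autoImplicit false

/-!
# All moments of quadratic Dirichlet `L`-functions at generic shifts: an error term of square root size

Let `s = ±1` and let `d` run over the fundamental discriminants of sign `s` with `1 < |d| < X`, that is, let `χ = χ_d`
run over the real primitive Dirichlet characters of conductor `q = |d|`, `2 ≤ q < X`, with `χ(-1) = s`. For every
`k ≥ 1` and every `A ≥ 2` we show, unconditionally,

`∑_d ∏_j L(1/2 + i α_j, χ_d) = (3/π²) X A_k(iα) ∏_{i ≤ j} ζ(1 + i α_i + i α_j) + O(X^(1/2 + ε))`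

for almost all shift vectors `α` in the cube `[-X^A, X^A]^k`. In the cube `[-H, H]^k` with `X^(1 + η) ≤ H ≤ X^A` the
error is `O(X^ε (X^(1/2) + X^(3/2) H^(-1/2)))` for almost all `α`; the exponents do not depend on `k`.

The main term is that of Conrey, Farmer, Keating, Rubinstein and Snaith (the terms of their recipe with swapped shifts
are smaller than the error term for almost all shifts of this size).

The proof: as an operator between the family and the interval of the shifts, `L` minus a Dirichlet polynomial of length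
`Y ≤ H` is of norm `X^ε (1 + X^2/Y) H` (correlations of the characters); the factors are replaced by the polynomials
one at a time; the averages of `χ_d(m)` over the family have square root size error terms in mean square over `m`
(Heath-Brown's large sieve for real characters). The diagonal sums over the box `n_j ≤ H` are compared with
`A_k ∏ ζ` in mean square over the cube, with an error of size `H^(-1/4 + ε)` for almost all shifts: the diagonal sum
over the region `∏ n_j ≤ N²`, `N = √H`, is a convolution of the coefficients of `A_k` (an absolutely convergent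
Dirichlet series to the right of `1/2`) with hyperbolic sums over the pairs `i ≤ j`, which are compared with the
products of zeta values one pair at a time by a mean value theorem in several variables.
-/

namespace Pool.Agent.Results.MP_ea46f5_nt.SquareRootError

open Complex MeasureTheory

noncomputable section

/-- The characters `χ_d` of the fundamental discriminants `d` of sign `s` with `|d| = q` (`q ≥ 2`): the real primitive
characters modulo `q` with `χ(-1) = s`. -/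
def chars (s : ℤ) (q : ℕ) : Set (DirichletCharacter ℂ q) :=
  {χ | χ.IsPrimitive ∧ χ ^ 2 = 1 ∧ χ (-1) = (s : ℂ)}

/-- The `L`-function of a Dirichlet character modulo `q ≥ 1` (the analytic continuation of `∑ χ(n) n^(-z)`). -/
def L {q : ℕ} (χ : DirichletCharacter ℂ q) (z : ℂ) : ℂ :=
  if h : q ≠ 0 then haveI : NeZero q := ⟨h⟩; DirichletCharacter.LFunction χ z else 0

/-- The shifted moment: the sum of `∏_j L(1/2 + i α_j, χ_d)` over the fundamental discriminants `d` of sign `s` with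
`2 ≤ |d| < X`. -/
def moment {k : ℕ} (s : ℤ) (X : ℝ) (α : Fin k → ℝ) : ℂ :=
  ∑ q ∈ Finset.Ico 2 ⌈X⌉₊, ∑ᶠ χ ∈ chars s q, ∏ j, L χ (1 / 2 + I * (α j : ℂ))

/-- The local factor of `A_k(z_1, …, z_k)` at the prime `p`. -/
def localFactor {k : ℕ} (z : Fin k → ℂ) (p : ℕ) : ℂ :=
  (∏ i, ∏ j ∈ Finset.Ici i, (1 - (p : ℂ) ^ (-(1 + z i + z j)))) *
    (1 / 2 * ((∏ j, (1 - (p : ℂ) ^ (-(1 / 2 + z j)))⁻¹) + ∏ j, (1 + (p : ℂ) ^ (-(1 / 2 + z j)))⁻¹) + 1 / (p : ℂ)) *
    (1 + 1 / (p : ℂ))⁻¹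

/-- The Euler product `A_k(z_1, …, z_k)`. -/
def A {k : ℕ} (z : Fin k → ℂ) : ℂ := ∏' p : Nat.Primes, localFactor z p

/-- `A_k(z) ∏_{i ≤ j} ζ(1 + z_i + z_j)`. -/
def mainTerm {k : ℕ} (z : Fin k → ℂ) : ℂ := A z * ∏ i, ∏ j ∈ Finset.Ici i, riemannZeta (1 + z i + z j)

/-- The difference between the moment and the prediction. -/
def err {k : ℕ} (s : ℤ) (X : ℝ) (α : Fin k → ℝ) : ℂ :=
  moment s X α - (3 / (Real.pi : ℂ) ^ 2) * X * mainTerm (fun j => I * (α j : ℂ))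

lemma mainTerm_eq {k : ℕ} (z : Fin k → ℂ) : mainTerm z = Pool.Agent.N879.QM.MT z := by
  unfold mainTerm Pool.Agent.N879.QM.MT A Pool.Agent.N879.QM.Ak
  rw [← Pool.Agent.N879.QM.prod_Pr (fun i j => riemannZeta (1 + z i + z j))]
  congr 1
  refine tprod_congr fun p => ?_
  unfold localFactor Pool.Agent.N879.QM.loc
  rw [← Pool.Agent.N879.QM.prod_Pr (fun i j => 1 - ((p : ℕ) : ℂ) ^ (-(1 + z i + z j)))]

lemma err_eq {k : ℕ} (b : Bool) (s : ℤ) (hs : s = if b then -1 else 1) (X : ℝ) (hX : 0 < X) (α : Fin k → ℝ) :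
    err s X α = ∑ p ∈ Pool.Agent.Y752.QF.QFs b (⌈X⌉₊ - 1),
      ∏ j, Pool.Agent.Y752.QF.LL p (1 / 2 + I * (α j : ℂ)) -
        (3 / Real.pi ^ 2 * X : ℝ) * Pool.Agent.Y752.QF.Mt α := by
  have hc : 1 ≤ ⌈X⌉₊ := Nat.one_le_ceil_iff.2 hX
  have h1 := Pool.Agent.H681.QF.fam_sum b s hs (⌈X⌉₊ - 1)
    (fun p => ∏ j, Pool.Agent.Y752.QF.LL p (1 / 2 + I * (α j : ℂ)))
  rw [Nat.sub_add_cancel hc] at h1
  unfold err moment
  rw [h1, mainTerm_eq, ← Pool.Agent.H681.QF.MT_eq]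
  congr 1
  unfold Pool.Agent.N879.QM.im
  push_cast
  ring

/-- For every `k ≥ 1`: for all `η, ε > 0` and `A` there are `δ > 0` and `X₀` such that for both signs `s`, all
`X ≥ X₀` and all `H` with `X^(1+η) ≤ H ≤ X^A`, the `α` in `[-H,H]^k` with
`|∑_d ∏_j L(1/2 + i α_j, χ_d) - (3/π²) X A_k(iα) ∏_{i ≤ j} ζ(1 + i α_i + i α_j)|` larger than
`X^ε (X^(1/2) + X^(3/2) H^(-1/2))` form a set of measure at most `H^k X^(-δ)`. In particular, for all `A ≥ 2` and
`ε > 0` there are `δ > 0` and `X₀` such that for both signs and all `X ≥ X₀` this difference is larger than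
`X^(1/2+ε)` only on a set of measure at most `X^(kA - δ)` in the cube `[-X^A, X^A]^k`. -/
theorem result (k : ℕ) (hk : 1 ≤ k) :
    (∀ η A ε : ℝ, 0 < η → 0 < ε → ∃ δ X₀ : ℝ, 0 < δ ∧ ∀ (s : ℤ) (X H : ℝ), s = 1 ∨ s = -1 →
      X₀ ≤ X → X ^ (1 + η) ≤ H → H ≤ X ^ A →
      volume {α : Fin k → ℝ | (∀ j, |α j| ≤ H) ∧
        X ^ ε * (X ^ (1 / 2 : ℝ) + X ^ (3 / 2 : ℝ) * H ^ (-(1 / 2) : ℝ)) < ‖err s X α‖} ≤
      ENNReal.ofReal (H ^ k * X ^ (-δ))) ∧
    ∀ A ε : ℝ, 2 ≤ A → 0 < ε → ∃ δ X₀ : ℝ, 0 < δ ∧ ∀ (s : ℤ) (X : ℝ), s = 1 ∨ s = -1 → X₀ ≤ X →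
      volume {α : Fin k → ℝ | (∀ j, |α j| ≤ X ^ A) ∧ X ^ (1 / 2 + ε) < ‖err s X α‖} ≤
      ENNReal.ofReal (X ^ (k * A - δ)) := by
  have h1 : ∀ η A ε : ℝ, 0 < η → 0 < ε → ∃ δ X₀ : ℝ, 0 < δ ∧ ∀ (s : ℤ) (X H : ℝ), s = 1 ∨ s = -1 →
      X₀ ≤ X → X ^ (1 + η) ≤ H → H ≤ X ^ A →
      volume {α : Fin k → ℝ | (∀ j, |α j| ≤ H) ∧
        X ^ ε * (X ^ (1 / 2 : ℝ) + X ^ (3 / 2 : ℝ) * H ^ (-(1 / 2) : ℝ)) < ‖err s X α‖} ≤
      ENNReal.ofReal (H ^ k * X ^ (-δ)) := by
    intro η A ε hη hε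
    obtain ⟨δ, X₀, hδ, h2⟩ := Pool.Agent.H681.QF.cube2 k hk η A ε hη hε
    refine ⟨δ, max X₀ 1, hδ, ?_⟩
    intro s X H hs hX hH1 hH2
    have hX0 : 0 < X := lt_of_lt_of_le one_pos ((le_max_right _ _).trans hX)
    obtain ⟨b, hb⟩ : ∃ b : Bool, s = if b then -1 else 1 := by
      rcases hs with rfl | rfl
      · exact ⟨false, rfl⟩
      · exact ⟨true, rfl⟩
    have h3 := h2 b X H ((le_max_left _ _).trans hX) hH1 hH2
    simp only [← err_eq b s hb X hX0] at h3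
    exact h3
  refine ⟨h1, ?_⟩
  intro A ε hA hε
  obtain ⟨δ, X₀, hδ, h2⟩ := h1 1 A (ε / 2) one_pos (by positivity)
  obtain ⟨X1, hX1⟩ : ∃ X1 : ℝ, ∀ X : ℝ, X1 ≤ X → 2 ≤ X ^ (ε / 2) := by
    obtain ⟨X1, h3⟩ := ((tendsto_rpow_atTop (half_pos hε)).eventually_ge_atTop 2).exists_forall_of_atTop
    exact ⟨X1, h3⟩
  refine ⟨δ, max (max X₀ X1) 1, hδ, ?_⟩
  intro s X hs hX
  have hX0' : X₀ ≤ X := (le_max_left _ _).trans ((le_max_left _ _).trans hX)
  have hX1' : X1 ≤ X := (le_max_right _ _).trans ((le_max_left _ _).trans hX)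
  have hX1r : 1 ≤ X := (le_max_right _ _).trans hX
  have hX0 : 0 < X := by linarith
  have h3 := h2 s X (X ^ A) hs hX0' (Real.rpow_le_rpow_of_exponent_le hX1r (by linarith)) le_rfl
  have e1 : ((X ^ A) ^ k * X ^ (-δ) : ℝ) = X ^ (k * A - δ) := by
    rw [← Real.rpow_natCast (X ^ A) k, ← Real.rpow_mul hX0.le, ← Real.rpow_add hX0]
    congr 1
    ring
  rw [e1] at h3
  refine (measure_mono ?_).trans h3
  rintro α ⟨g1, g2⟩
  refine ⟨g1, lt_of_le_of_lt ?_ g2⟩
  have e2 : X ^ (3 / 2 : ℝ) * (X ^ A) ^ (-(1 / 2) : ℝ) ≤ X ^ (1 / 2 : ℝ) := by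
    rw [← Real.rpow_mul hX0.le, ← Real.rpow_add hX0]
    exact Real.rpow_le_rpow_of_exponent_le hX1r (by linarith)
  have e4 : 0 < X ^ (1 / 2 : ℝ) := by positivity
  calc X ^ (ε / 2) * (X ^ (1 / 2 : ℝ) + X ^ (3 / 2 : ℝ) * (X ^ A) ^ (-(1 / 2) : ℝ)) ≤
        X ^ (ε / 2) * (2 * X ^ (1 / 2 : ℝ)) := by
        refine mul_le_mul_of_nonneg_left ?_ (by positivity)
        linarith
    _ ≤ X ^ (ε / 2) * (X ^ (ε / 2) * X ^ (1 / 2 : ℝ)) := by
        refine mul_le_mul_of_nonneg_left ?_ (by positivity)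
        exact mul_le_mul_of_nonneg_right (hX1 X hX1') e4.le
    _ = X ^ (1 / 2 + ε) := by
        rw [← Real.rpow_add hX0, ← Real.rpow_add hX0]
        congr 1
        ring

end

end Pool.Agent.Results.MP_ea46f5_nt.SquareRootError
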